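import Pool.Agent.Y108.LV.Exch

set_option autoImplicit false

/-!
# The Capelli polynomials
-/

namespace Pool.Agent.Y108.LV

variable {R : Type*} [NonUnitalRing R]

/-- The product `y₀ x₀ y₁ x₁ ⋯ x_(m-1) y_m`. -/
def mono : (m : ℕ) → (Fin (m + 1) → R) → (Fin m → R) → R
  | 0, y, _ => y 0
  | m + 1, y, x => y 0 * x 0 * mono m (Fin.tail y) (Fin.tail x)

/-- The Capelli polynomial: the sum of `sgn(σ) y₀ x_σ(0) y₁ x_σ(1) ⋯ x_σ(m-1) y_m` over all
permutations `σ`. -/
def cap (m : ℕ) (y : Fin (m + 1) → R) (x : Fin m → R) : R :=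
  ∑ σ : Equiv.Perm (Fin m), (Equiv.Perm.sign σ : ℤ) • mono m y (fun i => x (σ i))

theorem mono_right_rec (m : ℕ) (y : Fin (m + 2) → R) (x : Fin (m + 1) → R) :
    mono (m + 1) y x = mono m (Fin.init y) (Fin.init x) * x (Fin.last m) *
      y (Fin.last (m + 1)) := by
  induction m with
  | zero => rfl
  | succ m ih =>
    have h1 : mono (m + 2) y x = y 0 * x 0 * mono (m + 1) (Fin.tail y) (Fin.tail x) := rfl
    rw [h1, ih, ← Fin.tail_init_eq_init_tail, ← Fin.tail_init_eq_init_tail]
    have h2 : mono (m + 1) (Fin.init y) (Fin.init x) = (Fin.init y) 0 * (Fin.init x) 0 *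
      mono m (Fin.tail (Fin.init y)) (Fin.tail (Fin.init x)) := rfl
    rw [h2]
    simp only [mul_assoc]
    rfl

theorem mono_left (m : ℕ) (y : Fin (m + 1) → R) (x : Fin m → R) (p : R) :
    p * mono m y x = mono m (Function.update y 0 (p * y 0)) x := by
  cases m with
  | zero => simp [mono]
  | succ m =>
    simp only [mono, Function.update_self, mul_assoc]
    congr 3

theorem mono_right (m : ℕ) (y : Fin (m + 1) → R) (x : Fin m → R) (q : R) :
    mono m y x * q = mono m (Function.update y (Fin.last m) (y (Fin.last m) * q)) x := by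
  cases m with
  | zero => simp [mono]
  | succ m =>
    rw [mono_right_rec, mono_right_rec, Function.update_self, Fin.init_update_last]
    simp only [mul_assoc]

theorem cap_left (m : ℕ) (y : Fin (m + 1) → R) (x : Fin m → R) (p : R) :
    p * cap m y x = cap m (Function.update y 0 (p * y 0)) x := by
  simp only [cap, Finset.mul_sum, mul_smul_comm, mono_left]

theorem cap_right (m : ℕ) (y : Fin (m + 1) → R) (x : Fin m → R) (q : R) :
    cap m y x * q = cap m (Function.update y (Fin.last m) (y (Fin.last m) * q)) x := by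
  simp only [cap, Finset.sum_mul, smul_mul_assoc, mono_right]

/-- Decomposition of alternating sums according to the value at `0`. -/
theorem alt_succ (m : ℕ) (g : R → (Fin m → R) → R) (v : Fin (m + 1) → R) :
    ∑ σ : Equiv.Perm (Fin (m + 1)), (Equiv.Perm.sign σ : ℤ) •
      g (v (σ 0)) (fun i => v (σ i.succ)) =
    ∑ e : Equiv.Perm (Fin m), (Equiv.Perm.sign e : ℤ) • g (v 0) (fun i => v (e i).succ) -
    ∑ j : Fin m, ∑ e : Equiv.Perm (Fin m), (Equiv.Perm.sign e : ℤ) •
      g (v j.succ) (fun i => Function.update (Fin.tail v) j (v 0) (e i)) := by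
  classical
  rw [Finset.univ_perm_fin_succ, Finset.sum_map, Fintype.sum_prod_type, Fin.sum_univ_succ,
    sub_eq_add_neg]
  congr 1
  · refine Finset.sum_congr rfl fun e _ => ?_
    simp [Equiv.Perm.decomposeFin.symm_sign]
  · rw [← Finset.sum_neg_distrib]
    refine Finset.sum_congr rfl fun j _ => ?_
    rw [← Finset.sum_neg_distrib]
    refine Finset.sum_congr rfl fun e _ => ?_
    simp only [Equiv.toEmbedding_apply, Equiv.Perm.decomposeFin.symm_sign]
    have h1 : (Equiv.Perm.decomposeFin.symm (j.succ, e)) 0 = j.succ := by simp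
    rw [h1, if_neg (Fin.succ_ne_zero j)]
    have h2 : (fun i : Fin m => v ((Equiv.Perm.decomposeFin.symm (j.succ, e)) i.succ)) =
        fun i => Function.update (Fin.tail v) j (v 0) (e i) := by
      funext i
      rw [Equiv.Perm.decomposeFin_symm_apply_succ]
      by_cases h : e i = j
      · rw [h, Function.update_self, Equiv.swap_apply_right]
      · rw [Function.update_of_ne h, Equiv.swap_apply_of_ne_of_ne (Fin.succ_ne_zero _)]
        · rfl
        · intro h3
          exact h (Fin.succ_injective _ h3)
    rw [h2]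
    simp

theorem cap_succ (m : ℕ) (y : Fin (m + 2) → R) (v : Fin (m + 1) → R) :
    cap (m + 1) y v = y 0 * v 0 * cap m (Fin.tail y) (Fin.tail v) -
      ∑ j : Fin m, y 0 * v j.succ * cap m (Fin.tail y) (Function.update (Fin.tail v) j (v 0)) := by
  have := alt_succ m (fun z x => y 0 * z * mono m (Fin.tail y) x) v
  simp only [cap, Finset.mul_sum, mul_smul_comm]
  exact this

/-- The left exchange law. -/
theorem exL_cap (m : ℕ) (h : ∀ y x, cap (R := R) (m + 1) y x = 0) (y : Fin (m + 1) → R) :
    ExL (cap m y) := by
  intro x p z q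
  have h1 := h (Fin.cons q (Function.update y 0 (p * y 0))) (Fin.cons z x)
  rw [cap_succ] at h1
  simp only [Fin.cons_zero, Fin.tail_cons, Fin.cons_succ, ← cap_left] at h1
  simp only [mul_assoc] at h1 ⊢
  exact sub_eq_zero.1 h1

/-- the Capelli polynomial with the letters in the reverse order -/
def capR (m : ℕ) (y : Fin (m + 1) → R) (x : Fin m → R) : R := cap m y (fun i => x i.rev)

theorem cap_rev (m : ℕ) (y : Fin (m + 1) → R) (v : Fin m → R) :
    cap m y (fun i => v i.rev) = ∑ σ : Equiv.Perm (Fin m), (Equiv.Perm.sign σ : ℤ) •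
      mono m y (fun i => v (σ i.rev)) := by
  rw [cap, ← Equiv.sum_comp ((Equiv.mulLeft (Fin.revPerm (n := m))).trans
    (Equiv.mulRight (Fin.revPerm (n := m))))]
  refine Finset.sum_congr rfl fun σ _ => ?_
  simp only [Equiv.trans_apply, Equiv.coe_mulLeft, Equiv.coe_mulRight, Equiv.Perm.mul_apply,
    Fin.revPerm_apply, Fin.rev_rev, Equiv.Perm.sign_mul]
  congr 1
  rcases Int.units_eq_one_or (Equiv.Perm.sign (Fin.revPerm (n := m))) with h | h <;> simp [h]

theorem capR_succ (m : ℕ) (y : Fin (m + 2) → R) (v : Fin (m + 1) → R) :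
    capR (m + 1) y v = capR m (Fin.init y) (Fin.tail v) * v 0 * y (Fin.last (m + 1)) -
      ∑ j : Fin m, capR m (Fin.init y) (Function.update (Fin.tail v) j (v 0)) * v j.succ *
        y (Fin.last (m + 1)) := by
  have := alt_succ m (fun z x => mono m (Fin.init y) (fun i => x i.rev) * z *
    y (Fin.last (m + 1))) v
  have e : ∀ σ : Equiv.Perm (Fin (m + 1)), mono (m + 1) y (fun i => v (σ i.rev)) =
      mono m (Fin.init y) (fun i => v (σ i.rev.succ)) * v (σ 0) * y (Fin.last (m + 1)) := by
    intro σ
    rw [mono_right_rec]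
    have h1 : (Fin.init fun i : Fin (m + 1) => v (σ i.rev)) = fun i => v (σ i.rev.succ) := by
      funext i
      simp [Fin.init, Fin.rev_castSucc]
    rw [h1, Fin.rev_last]
  rw [capR, cap_rev]
  simp only [e, capR, cap_rev, Finset.sum_mul, smul_mul_assoc]
  exact this

/-- The right exchange law. -/
theorem exR_capR (m : ℕ) (h : ∀ y x, cap (R := R) (m + 1) y x = 0) (y : Fin (m + 1) → R) :
    ExR (capR m y) := by
  intro x p z q
  have h0 : ∀ y x, capR (R := R) (m + 1) y x = 0 := fun y x => h _ _
  have h1 := h0 (Fin.snoc (α := fun _ => R)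
    (Function.update y (Fin.last m) (y (Fin.last m) * p)) q) (Fin.cons z x)
  rw [capR_succ] at h1
  simp only [Fin.cons_zero, Fin.tail_cons, Fin.cons_succ, Fin.init_snoc, Fin.snoc_last] at h1
  simp only [capR, ← cap_right] at h1 ⊢
  exact sub_eq_zero.1 h1

theorem slotE_mono (m : ℕ) (y : Fin (m + 1) → R) : SlotE (mono m y) := by
  classical
  induction m with
  | zero => intro x i; exact i.elim0
  | succ m ih =>
    intro x i
    refine Fin.cases ?_ (fun j => ?_) i
    · have : (fun z => mono (m + 1) y (Function.update x 0 z)) = fun z =>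
          y 0 * z * mono m (Fin.tail y) (Fin.tail x) := by
        funext z
        simp only [mono, Function.update_self, Fin.tail_update_zero]
      rw [this]
      exact Elem.basic _ _
    · have : (fun z => mono (m + 1) y (Function.update x j.succ z)) = fun z =>
          (y 0 * x 0) * mono m (Fin.tail y) (Function.update (Fin.tail x) j z) := by
        funext z
        simp only [mono]
        rw [Function.update_of_ne (Fin.succ_ne_zero j).symm, Fin.tail_update_succ]
      rw [this]
      exact (ih (Fin.tail y) (Fin.tail x) j).mulLeft _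

theorem slotE_cap (m : ℕ) (y : Fin (m + 1) → R) : SlotE (cap m y) := by
  classical
  intro x i
  refine Elem.sum fun σ _ => Elem.zsmul ?_ _
  have : (fun z => mono m y (fun k => Function.update x i z (σ k))) = fun z =>
      mono m y (Function.update (fun k => x (σ k)) (σ.symm i) z) := by
    funext z
    congr 1
    funext k
    by_cases h : σ k = i
    · rw [h, Function.update_self]
      have h1 : k = σ.symm i := by rw [← h, Equiv.symm_apply_apply]
      rw [h1, Function.update_self]
    · rw [Function.update_of_ne h, Function.update_of_ne]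
      intro h2
      exact h (by rw [h2, Equiv.apply_symm_apply])
  rw [this]
  exact slotE_mono m y _ _

theorem slotE_capR (m : ℕ) (y : Fin (m + 1) → R) : SlotE (capR m y) := by
  classical
  intro x i
  have : (fun z => capR m y (Function.update x i z)) = fun z =>
      cap m y (Function.update (fun k => x k.rev) i.rev z) := by
    funext z
    rw [capR]
    congr 1
    funext k
    by_cases h : k.rev = i
    · rw [h, Function.update_self, ← h, Fin.rev_rev, Function.update_self]
    · rw [Function.update_of_ne h, Function.update_of_ne]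
      intro h2
      exact h (by rw [h2, Fin.rev_rev])
  rw [this]
  exact slotE_cap m y _ _

end Pool.Agent.Y108.LV
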