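import Mathlib

set_option autoImplicit false

/-!
# Exchange laws and the vanishing of traces of commutators
-/

namespace Pool.Agent.Y108.LV

variable {R : Type*} [NonUnitalRing R]

/-- Sums of maps `z ↦ p z q`. -/
def Elem (φ : R → R) : Prop :=
  φ ∈ AddSubgroup.closure {ψ : R → R | ∃ p q : R, ψ = fun z => p * z * q}

theorem Elem.induction {P : (R → R) → Prop} (h1 : ∀ p q : R, P (fun z => p * z * q))
    (h0 : P 0) (ha : ∀ φ ψ, P φ → P ψ → P (φ + ψ)) (hn : ∀ φ, P φ → P (-φ)) {φ : R → R}
    (h : Elem φ) : P φ := by
  refine AddSubgroup.closure_induction ?_ h0 (fun x y _ _ => ha x y) (fun x _ => hn x) h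
  rintro _ ⟨p, q, rfl⟩
  exact h1 p q

theorem Elem.basic (p q : R) : Elem (fun z : R => p * z * q) :=
  AddSubgroup.subset_closure ⟨p, q, rfl⟩

theorem Elem.zero : Elem (fun _ : R => (0 : R)) := AddSubgroup.zero_mem _

theorem Elem.add {φ ψ : R → R} (h : Elem φ) (h' : Elem ψ) : Elem (fun z => φ z + ψ z) :=
  AddSubgroup.add_mem _ h h'

theorem Elem.zsmul {φ : R → R} (h : Elem φ) (n : ℤ) : Elem (fun z => n • φ z) :=
  AddSubgroup.zsmul_mem _ h n

theorem Elem.sum {ι : Type*} {s : Finset ι} {φ : ι → R → R} (h : ∀ i ∈ s, Elem (φ i)) :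
    Elem (fun z => ∑ i ∈ s, φ i z) := by
  have h1 := AddSubgroup.sum_mem _ h
  have h2 : (fun z => ∑ i ∈ s, φ i z) = ∑ i ∈ s, φ i := by
    funext z
    rw [Finset.sum_apply]
  unfold Elem
  rw [h2]
  exact h1

theorem Elem.map_add {φ : R → R} (h : Elem φ) (u v : R) : φ (u + v) = φ u + φ v := by
  revert u v
  refine Elem.induction (P := fun φ => ∀ u v, φ (u + v) = φ u + φ v) ?_ ?_ ?_ ?_ h
  · intro p q u v
    simp only [mul_add, add_mul]
  · intro u v
    simp
  · intro φ ψ h1 h2 u v
    simp only [Pi.add_apply, h1, h2]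
    abel
  · intro φ h1 u v
    simp only [Pi.neg_apply, h1]
    abel

theorem Elem.map_zero {φ : R → R} (h : Elem φ) : φ 0 = 0 := by
  have := h.map_add 0 0
  rw [add_zero] at this
  exact left_eq_add.1 this

theorem Elem.map_neg {φ : R → R} (h : Elem φ) (u : R) : φ (-u) = - φ u := by
  have := h.map_add u (-u)
  rw [add_neg_cancel, h.map_zero] at this
  exact (neg_eq_of_add_eq_zero_right this.symm).symm

theorem Elem.comp_mulLeft {φ : R → R} (h : Elem φ) (a : R) : Elem (fun z => φ (a * z)) := by
  refine Elem.induction (P := fun φ => Elem (fun z => φ (a * z))) ?_ ?_ ?_ ?_ h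
  · intro p q
    have : (fun z => p * (a * z) * q) = fun z => (p * a) * z * q := by
      ext z; simp only [mul_assoc]
    rw [this]
    exact Elem.basic _ _
  · exact Elem.zero
  · intro φ ψ h1 h2
    exact h1.add h2
  · intro φ h1
    exact AddSubgroup.neg_mem _ h1

theorem Elem.mulRight {φ : R → R} (h : Elem φ) (r : R) : Elem (fun z => φ z * r) := by
  refine Elem.induction (P := fun φ => Elem (fun z => φ z * r)) ?_ ?_ ?_ ?_ h
  · intro p q
    have : (fun z => p * z * q * r) = fun z => p * z * (q * r) := by
      ext z; simp only [mul_assoc]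
    rw [this]
    exact Elem.basic _ _
  · simp only [Pi.zero_apply, zero_mul]
    exact Elem.zero
  · intro φ ψ h1 h2
    simp only [Pi.add_apply, add_mul]
    exact h1.add h2
  · intro φ h1
    simp only [Pi.neg_apply, neg_mul]
    exact AddSubgroup.neg_mem _ h1

theorem Elem.mulLeft {φ : R → R} (h : Elem φ) (r : R) : Elem (fun z => r * φ z) := by
  refine Elem.induction (P := fun φ => Elem (fun z => r * φ z)) ?_ ?_ ?_ ?_ h
  · intro p q
    have : (fun z => r * (p * z * q)) = fun z => (r * p) * z * q := by
      ext z; simp only [mul_assoc]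
    rw [this]
    exact Elem.basic _ _
  · simp only [Pi.zero_apply, mul_zero]
    exact Elem.zero
  · intro φ ψ h1 h2
    simp only [Pi.add_apply, mul_add]
    exact h1.add h2
  · intro φ h1
    simp only [Pi.neg_apply, mul_neg]
    exact AddSubgroup.neg_mem _ h1

variable {m : ℕ}

/-- Each slot is elementary. -/
def SlotE (D : (Fin m → R) → R) : Prop := ∀ x i, Elem (fun z => D (Function.update x i z))

/-- The exchange law to the right. -/
def ExR (D : (Fin m → R) → R) : Prop := ∀ x p z q,
  D x * p * z * q = ∑ i, D (Function.update x i z) * p * x i * q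

/-- The exchange law to the left. -/
def ExL (D : (Fin m → R) → R) : Prop := ∀ x p z q,
  q * z * p * D x = ∑ i, q * x i * p * D (Function.update x i z)

/-- `D` with each argument in turn multiplied by `a`. -/
def T (a : R) (D : (Fin m → R) → R) : (Fin m → R) → R :=
  fun x => ∑ i, D (Function.update x i (a * x i))

theorem exR_elem {D : (Fin m → R) → R} (hD : ExR D) {φ : R → R} (h : Elem φ) :
    ∀ x w z, D x * w * φ z = ∑ i, D (Function.update x i z) * w * φ (x i) := by
  refine Elem.induction (P := fun φ => ∀ x w z, D x * w * φ z =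
    ∑ i, D (Function.update x i z) * w * φ (x i)) ?_ ?_ ?_ ?_ h
  · intro p q x w z
    have := hD x (w * p) z q
    simp only [mul_assoc] at this ⊢
    exact this
  · intro x w z
    simp
  · intro φ ψ h1 h2 x w z
    simp only [Pi.add_apply, mul_add, Finset.sum_add_distrib]
    rw [h1 x w z, h2 x w z]
  · intro φ h1 x w z
    simp only [Pi.neg_apply, mul_neg, Finset.sum_neg_distrib]
    rw [h1 x w z]

theorem exL_elem {D : (Fin m → R) → R} (hD : ExL D) {φ : R → R} (h : Elem φ) :
    ∀ x w z, φ z * w * D x = ∑ i, φ (x i) * w * D (Function.update x i z) := by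
  refine Elem.induction (P := fun φ => ∀ x w z, φ z * w * D x =
    ∑ i, φ (x i) * w * D (Function.update x i z)) ?_ ?_ ?_ ?_ h
  · intro p q x w z
    have := hD x (q * w) z p
    simp only [mul_assoc] at this ⊢
    exact this
  · intro x w z
    simp
  · intro φ ψ h1 h2 x w z
    simp only [Pi.add_apply, add_mul, Finset.sum_add_distrib]
    rw [h1 x w z, h2 x w z]
  · intro φ h1 x w z
    simp only [Pi.neg_apply, neg_mul, Finset.sum_neg_distrib]
    rw [h1 x w z]

/-- The trace may be taken on the left or on the right factor. -/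
theorem L1 {n : ℕ} {D : (Fin m → R) → R} {D' : (Fin n → R) → R} (hs : SlotE D) (hr : ExR D)
    (hs' : SlotE D') (hl' : ExL D') (a : R) (x : Fin m → R) (w : R) (x' : Fin n → R) :
    T a D x * w * D' x' = D x * w * T a D' x' := by
  have e1 : T a D x * w * D' x' = ∑ i, ∑ j, D (Function.update x i (x' j)) * w *
      D' (Function.update x' j (a * x i)) := by
    rw [T, Finset.sum_mul, Finset.sum_mul]
    refine Finset.sum_congr rfl fun i _ => ?_
    exact exL_elem hl' (hs x i) x' w (a * x i)
  have e2 : D x * w * T a D' x' = ∑ j, ∑ i, D (Function.update x i (x' j)) * w *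
      D' (Function.update x' j (a * x i)) := by
    rw [T, Finset.mul_sum]
    refine Finset.sum_congr rfl fun j _ => ?_
    exact exR_elem hr ((hs' x' j).comp_mulLeft a) x w (x' j)
  rw [e1, e2, Finset.sum_comm]

theorem T_expand (b : R) (D : (Fin m → R) → R) (x : Fin m → R) (i : Fin m) (z : R) :
    T b D (Function.update x i z) = D (Function.update x i (b * z)) +
      ∑ j ∈ Finset.univ.erase i, D (Function.update (Function.update x j (b * x j)) i z) := by
  classical
  rw [T, ← Finset.add_sum_erase _ _ (Finset.mem_univ i)]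
  congr 1
  · rw [Function.update_idem, Function.update_self]
  · refine Finset.sum_congr rfl fun j hj => ?_
    have hji : j ≠ i := Finset.ne_of_mem_erase hj
    rw [Function.update_of_ne hji, Function.update_comm hji]

theorem slotE_T {D : (Fin m → R) → R} (hs : SlotE D) (b : R) : SlotE (T b D) := by
  intro x i
  simp only [T_expand]
  exact ((hs x i).comp_mulLeft b).add (Elem.sum fun j _ => hs _ i)

theorem exR_T {D : (Fin m → R) → R} (hr : ExR D) (b : R) : ExR (T b D) := by
  classical
  intro x p z q
  have h1 : T b D x * p * z * q = ∑ j, (D (Function.update x j z) * (p * b) * x j * q +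
      ∑ i ∈ Finset.univ.erase j,
        D (Function.update (Function.update x j (b * x j)) i z) * p * x i * q) := by
    rw [T, Finset.sum_mul, Finset.sum_mul, Finset.sum_mul]
    refine Finset.sum_congr rfl fun j _ => ?_
    rw [hr (Function.update x j (b * x j)) p z q, ← Finset.add_sum_erase _ _ (Finset.mem_univ j)]
    congr 1
    · rw [Function.update_idem, Function.update_self]
      simp only [mul_assoc]
    · refine Finset.sum_congr rfl fun i hi => ?_
      rw [Function.update_of_ne (Finset.ne_of_mem_erase hi)]
  have h2 : ∑ i, T b D (Function.update x i z) * p * x i * q =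
      ∑ i, (D (Function.update x i (b * z)) * p * x i * q + ∑ j ∈ Finset.univ.erase i,
        D (Function.update (Function.update x j (b * x j)) i z) * p * x i * q) := by
    refine Finset.sum_congr rfl fun i _ => ?_
    rw [T_expand, add_mul, add_mul, add_mul, Finset.sum_mul, Finset.sum_mul, Finset.sum_mul]
  rw [h1, h2, Finset.sum_add_distrib, Finset.sum_add_distrib]
  congr 1
  · rw [← hr x (p * b) z q, ← hr x p (b * z) q]
    simp only [mul_assoc]
  · apply Finset.sum_comm'
    intro i j
    simp only [Finset.mem_univ, Finset.mem_erase, and_true, true_and, ne_eq]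
    tauto

theorem L2 {n : ℕ} {D : (Fin m → R) → R} {D' : (Fin n → R) → R} (hs : SlotE D) (hr : ExR D)
    (hs' : SlotE D') (hl' : ExL D') (b c : R) (x : Fin m → R) (w : R) (x' : Fin n → R) :
    T c (T b D) x * w * D' x' = T b (T c D) x * w * D' x' := by
  rw [L1 (slotE_T hs c) (exR_T hr c) hs' hl' b]
  rw [T, Finset.sum_mul, Finset.sum_mul]
  have : ∀ i, T b D (Function.update x i (c * x i)) * w * D' x' =
      D (Function.update x i (c * x i)) * w * T b D' x' :=
    fun i => L1 hs hr hs' hl' b _ w x'
  simp only [this]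
  rw [← Finset.sum_mul, ← Finset.sum_mul]
  rfl

theorem T_add {D : (Fin m → R) → R} (hs : SlotE D) (a b : R) (x : Fin m → R) :
    T (a + b) D x = T a D x + T b D x := by
  simp only [T, add_mul, (hs x _).map_add, Finset.sum_add_distrib]

theorem T_neg {D : (Fin m → R) → R} (hs : SlotE D) (a : R) (x : Fin m → R) :
    T (-a) D x = - T a D x := by
  simp only [T, neg_mul, (hs x _).map_neg, Finset.sum_neg_distrib]

theorem T_comp (b c : R) (D : (Fin m → R) → R) (x : Fin m → R) :
    T c (T b D) x = T (b * c) D x + ∑ i, ∑ j ∈ Finset.univ.erase i,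
      D (Function.update (Function.update x j (b * x j)) i (c * x i)) := by
  classical
  have : T c (T b D) x = ∑ i, T b D (Function.update x i (c * x i)) := rfl
  rw [this]
  simp only [T_expand, Finset.sum_add_distrib]
  congr 1
  simp only [T, mul_assoc]

/-- The trace of a commutator vanishes. -/
theorem T_commutator {n : ℕ} {D : (Fin m → R) → R} {D' : (Fin n → R) → R} (hs : SlotE D)
    (hr : ExR D) (hs' : SlotE D') (hl' : ExL D') (b c : R) (x : Fin m → R) (w : R)
    (x' : Fin n → R) : T (b * c - c * b) D x * w * D' x' = 0 := by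
  classical
  have h := L2 hs hr hs' hl' b c x w x'
  rw [T_comp, T_comp] at h
  have h1 : ∑ i, ∑ j ∈ Finset.univ.erase i,
      D (Function.update (Function.update x j (b * x j)) i (c * x i)) =
      ∑ i, ∑ j ∈ Finset.univ.erase i,
      D (Function.update (Function.update x j (c * x j)) i (b * x i)) := by
    rw [Finset.sum_comm' (t' := Finset.univ) (s' := fun j => Finset.univ.erase j)]
    · refine Finset.sum_congr rfl fun i _ => Finset.sum_congr rfl fun j hj => ?_
      rw [Function.update_comm (Finset.ne_of_mem_erase hj).symm]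
    · intro i j
      simp only [Finset.mem_univ, Finset.mem_erase, and_true, true_and, ne_eq]
      tauto
  rw [h1, add_mul, add_mul, add_mul, add_mul] at h
  have h2 := add_right_cancel h
  rw [sub_eq_add_neg, T_add hs, T_neg hs, add_mul, add_mul, neg_mul, neg_mul, h2,
    add_neg_cancel]

/-- If every element is a sum of commutators then all traces vanish. -/
theorem T_eq_zero {n : ℕ} {D : (Fin m → R) → R} {D' : (Fin n → R) → R} (hs : SlotE D)
    (hr : ExR D) (hs' : SlotE D') (hl' : ExL D')
    (hR : AddSubgroup.closure {x : R | ∃ a b : R, x = a * b - b * a} = ⊤)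
    (a : R) (x : Fin m → R) (w : R) (x' : Fin n → R) : T a D x * w * D' x' = 0 := by
  have ha : a ∈ AddSubgroup.closure {x : R | ∃ a b : R, x = a * b - b * a} := by
    rw [hR]; trivial
  induction ha using AddSubgroup.closure_induction with
  | mem y hy =>
    obtain ⟨b, c, rfl⟩ := hy
    exact T_commutator hs hr hs' hl' b c x w x'
  | zero =>
    have : T (0 : R) D x = 0 := by
      simp only [T, zero_mul, (hs x _).map_zero, Finset.sum_const_zero]
    rw [this, zero_mul, zero_mul]
  | add y z _ _ h1 h2 => rw [T_add hs, add_mul, add_mul, h1, h2, add_zero]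
  | neg y _ h1 => rw [T_neg hs, neg_mul, neg_mul, h1, neg_zero]

end Pool.Agent.Y108.LV
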