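import Pool.Agent.Y108.LV.Main

set_option autoImplicit false

/-!
# Subrings of algebras which are finitely generated modules over a commutative ring
-/

universe u v w

namespace Pool.Agent.Y108.LV

open scoped Nat

variable {C : Type v} [CommRing C] {A : Type w} [Ring A] [Algebra C A]

theorem Elem.map_smul {g : A → A} (h : Elem g) (c : C) (z : A) : g (c • z) = c • g z := by
  revert z
  refine Elem.induction (P := fun g => ∀ z, g (c • z) = c • g z) ?_ ?_ ?_ ?_ h
  · intro p q z
    simp only [mul_smul_comm, smul_mul_assoc]
  · intro z
    simp
  · intro g1 g2 h1 h2 z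
    simp only [Pi.add_apply, h1, h2, smul_add]
  · intro g1 h1 z
    simp only [Pi.neg_apply, h1, smul_neg]

/-- the products as a multilinear map -/
def monoML (m : ℕ) (y : Fin (m + 1) → A) : MultilinearMap C (fun _ : Fin m => A) A where
  toFun := mono m y
  map_update_add' := by
    intro inst x i a b
    obtain rfl : inst = instDecidableEqFin m := Subsingleton.elim _ _
    exact (slotE_mono m y x i).map_add a b
  map_update_smul' := by
    intro inst x i c a
    obtain rfl : inst = instDecidableEqFin m := Subsingleton.elim _ _
    exact (slotE_mono m y x i).map_smul c a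

theorem cap_eq_alt (m : ℕ) (y : Fin (m + 1) → A) (x : Fin m → A) :
    cap m y x = MultilinearMap.alternatization (monoML (C := C) m y) x := by
  rw [MultilinearMap.alternatization_apply]
  rfl

/-- An algebra generated by `m` elements as a module satisfies the Capelli identity of order
`m + 1`. -/
theorem cap_eq_zero_of_span (m : ℕ) (s : Fin m → A) (hs : Submodule.span C (Set.range s) = ⊤)
    (y : Fin (m + 2) → A) (x : Fin (m + 1) → A) : cap (m + 1) y x = 0 := by
  classical
  rw [cap_eq_alt (C := C)]
  set f := MultilinearMap.alternatization (monoML (C := C) (m + 1) y) with hf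
  let L : (Fin m → C) →ₗ[C] A := Fintype.linearCombination C s
  have hL : ∀ a : A, ∃ c, L c = a := by
    intro a
    have ha : a ∈ Submodule.span C (Set.range s) := by rw [hs]; trivial
    rw [← Fintype.range_linearCombination] at ha
    exact ha
  choose c hc using hL
  have hg : f.compLinearMap L = 0 := by
    refine Module.Basis.ext_alternating (Pi.basisFun C (Fin m)) ?_
    intro v hv
    exfalso
    have := Fintype.card_le_of_injective v hv
    simp at this
  have h1 : f x = f.compLinearMap L (fun i => c (x i)) := by
    rw [AlternatingMap.compLinearMap_apply]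
    congr 1
    funext i
    exact (hc (x i)).symm
  rw [h1, hg]
  rfl

theorem cap_of_injective {R : Type u} [NonUnitalRing R] (g : R →ₙ+* A)
    (hg : Function.Injective g) (m : ℕ) (h : ∀ y x, cap (R := A) m y x = 0)
    (y : Fin (m + 1) → R) (x : Fin m → R) : cap m y x = 0 := by
  have map_mono' : ∀ (m : ℕ) (y : Fin (m + 1) → R) (x : Fin m → R),
      g (mono m y x) = mono m (fun i => g (y i)) (fun i => g (x i)) := by
    intro m
    induction m with
    | zero => intro y x; rfl
    | succ m ih =>
      intro y x
      simp only [mono, map_mul, ih]
      rfl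
  apply hg
  rw [map_zero, ← h (fun i => g (y i)) (fun i => g (x i))]
  simp only [cap, map_sum, map_zsmul, map_mono']

end Pool.Agent.Y108.LV
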