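import Pool.Agent.Y108.LV.Newt

set_option autoImplicit false

/-!
# Higman's argument for ideals without small torsion in the quotient
-/

namespace Pool.Agent.Y108.LV

section unital

variable {A : Type*} [Ring A]

/-- Expansion of `(x + t y)^N` to first order. -/
lemma exists_expansion (x y : A) (N : ℕ) : ∃ c : ℕ → A, (∀ t : ℤ, (x + t • y) ^ N =
    ∑ k ∈ Finset.range (N + 1), t ^ k • c k) ∧ c 0 = x ^ N ∧
    c 1 = ∑ i ∈ Finset.range N, x ^ i * y * x ^ (N - 1 - i) := by
  induction N with
  | zero =>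
    refine ⟨fun k => if k = 0 then 1 else 0, fun t => ?_, ?_, ?_⟩
    · simp
    · simp
    · simp
  | succ N ih =>
    obtain ⟨c, h1, h2, h3⟩ := ih
    let c' : ℕ → A := fun k => if k ≤ N then c k else 0
    refine ⟨fun k => x * c' k + (if k = 0 then 0 else y * c' (k - 1)), fun t => ?_, ?_, ?_⟩
    · have e1 : (x + t • y) ^ N = ∑ k ∈ Finset.range (N + 1), t ^ k • c' k := by
        rw [h1]
        apply Finset.sum_congr rfl
        intro k hk
        rw [Finset.mem_range] at hk
        simp only [c', if_pos (Nat.lt_succ_iff.1 hk)]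
      have e2 : c' (N + 1) = 0 := if_neg (by omega)
      rw [pow_succ', e1, add_mul]
      simp only [smul_add, Finset.sum_add_distrib]
      congr 1
      · rw [Finset.sum_range_succ _ (N + 1), e2, mul_zero, smul_zero, add_zero, Finset.mul_sum]
        apply Finset.sum_congr rfl
        intro k _
        rw [mul_smul_comm]
      · rw [Finset.sum_range_succ' _ (N + 1)]
        simp only [Nat.add_eq_zero_iff, one_ne_zero, and_false, if_false, Nat.add_sub_cancel,
          if_true, smul_zero, add_zero]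
        rw [Finset.mul_sum]
        apply Finset.sum_congr rfl
        intro k _
        rw [mul_smul_comm, smul_mul_assoc, smul_smul, pow_succ]
    · simp only [c', if_true, add_zero, Nat.zero_le, h2]
      rw [pow_succ']
    · by_cases hN : N = 0
      · subst hN
        simp [c', h2]
      · have h4 : c' 1 = c 1 := if_pos (by omega)
        have h5 : c' (1 - 1) = x ^ N := by
          simp only [c', Nat.sub_self, Nat.zero_le, if_true, h2]
        simp only [one_ne_zero, if_false]
        rw [h4, h5, h3, Finset.sum_range_succ', Finset.mul_sum]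
        simp only [pow_zero, one_mul]
        congr 1
        apply Finset.sum_congr rfl
        intro i hi
        rw [pow_succ', show N + 1 - 1 - (i + 1) = N - 1 - i by omega]
        simp only [mul_assoc]

/-- no `k`-torsion modulo `J`, `1 ≤ k ≤ N` -/
def Pure {G : Type*} [AddCommGroup G] (J : AddSubgroup G) (N : ℕ) : Prop :=
  ∀ k : ℕ, 1 ≤ k → k ≤ N → ∀ z : G, k • z ∈ J → z ∈ J

/-- The linearization of `x^N ∈ J`. -/
lemma linearize (B J : AddSubgroup A) {N : ℕ} (hJ : Pure J N) (h : ∀ x ∈ B, x ^ N ∈ J) {x y : A}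
    (hx : x ∈ B) (hy : y ∈ B) (hN : 1 ≤ N) :
    ∑ i ∈ Finset.range N, x ^ i * y * x ^ (N - 1 - i) ∈ J := by
  classical
  obtain ⟨c, h1, -, h3⟩ := exists_expansion x y N
  rw [← h3]
  let v : Fin (N + 1) → ℤ := fun i => (i : ℕ)
  let V : Matrix (Fin (N + 1)) (Fin (N + 1)) ℤ := Matrix.vandermonde v
  have hP : ∀ t : Fin (N + 1), ∑ k : Fin (N + 1), V t k • c k ∈ J := by
    intro t
    have h4 : (x + v t • y) ^ N ∈ J := h _ (B.add_mem hx (B.zsmul_mem hy _))
    rw [h1, Finset.sum_range] at h4
    exact h4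
  have hd : V.det • c 1 ∈ J := by
    have h5 : ∑ t, V.adjugate 1 t • ∑ k : Fin (N + 1), V t k • c k ∈ J :=
      AddSubgroup.sum_mem _ fun t _ => J.zsmul_mem (hP t) _
    have h6 : ∑ t, V.adjugate 1 t • ∑ k : Fin (N + 1), V t k • c k =
        ∑ k : Fin (N + 1), (V.adjugate * V) 1 k • c k := by
      simp only [Finset.smul_sum, smul_smul, Matrix.mul_apply, Finset.sum_smul]
      rw [Finset.sum_comm]
    rw [h6, Matrix.adjugate_mul] at h5
    rw [Finset.sum_eq_single (1 : Fin (N + 1))] at h5
    · simp only [Matrix.smul_apply, Matrix.one_apply_eq, smul_eq_mul, mul_one] at h5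
      have h7 : ((1 : Fin (N + 1)) : ℕ) = 1 := by
        obtain ⟨n, rfl⟩ : ∃ n, N = n + 1 := ⟨N - 1, by omega⟩
        rfl
      rwa [h7] at h5
    · intro b _ hb
      simp [Matrix.one_apply_ne (Ne.symm hb)]
    · intro h7
      exact absurd (Finset.mem_univ _) h7
  have hprod : ∀ d : ℤ, (∃ s : Finset (Fin (N + 1) × Fin (N + 1)),
      (∀ p ∈ s, p.1 < p.2) ∧ d = ∏ p ∈ s, (v p.2 - v p.1)) → ∀ z : A, d • z ∈ J → z ∈ J := by
    rintro d ⟨s, hs, rfl⟩
    induction s using Finset.induction_on with
    | empty => intro z hz; simpa using hz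
    | insert p s hp ih =>
      intro z hz
      rw [Finset.prod_insert hp, mul_comm, mul_smul] at hz
      have h8 := ih (fun q hq => hs q (Finset.mem_insert_of_mem hq)) _ hz
      have h9 := hs p (Finset.mem_insert_self _ _)
      have h10 : v p.2 - v p.1 = ((p.2 - p.1 : ℕ) : ℤ) := by
        simp only [v]
        rw [Nat.cast_sub (le_of_lt h9)]
      rw [h10, natCast_zsmul] at h8
      have h11 : (p.1 : ℕ) < p.2 := h9
      exact hJ _ (by omega) (by have := p.2.2; omega) z h8
  refine hprod V.det ?_ _ hd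
  refine ⟨(Finset.univ : Finset (Fin (N + 1) × Fin (N + 1))).filter (fun p => p.1 < p.2),
    fun p hp => (Finset.mem_filter.1 hp).2, ?_⟩
  rw [Matrix.det_vandermonde, Finset.prod_filter, ← Finset.univ_product_univ,
    Finset.prod_product]
  refine Finset.prod_congr rfl fun i _ => ?_
  rw [← Finset.prod_filter]
  refine Finset.prod_congr ?_ fun _ _ => rfl
  ext j
  simp

/-- Powers of elements of a multiplicatively closed subgroup. -/
lemma pow_mem_of {B : AddSubgroup A} (hB : ∀ x ∈ B, ∀ y ∈ B, x * y ∈ B) {x : A} (hx : x ∈ B)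
    (n : ℕ) : x ^ (n + 1) ∈ B := by
  induction n with
  | zero => rwa [zero_add, pow_one]
  | succ n ih => rw [pow_succ]; exact hB _ ih _ hx

/-- Higman's identity. -/
lemma higman {B J : AddSubgroup A} (hB : ∀ x ∈ B, ∀ y ∈ B, x * y ∈ B)
    (hl : ∀ x ∈ B, ∀ y ∈ J, x * y ∈ J) (hr : ∀ x ∈ J, ∀ y ∈ B, x * y ∈ J) {n : ℕ}
    (hJ : Pure J (n + 1))
    (h : ∀ x ∈ B, x ^ (n + 1) ∈ J) {x y z : A} (hx : x ∈ B) (hy : y ∈ B) (hz : z ∈ B) :
    x ^ n * z * y ^ n ∈ J := by
  have hlin : ∀ {u v : A}, u ∈ B → v ∈ B →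
      ∑ i ∈ Finset.range (n + 1), u ^ (n - i) * v * u ^ i ∈ J := by
    intro u v hu hv
    have h1 := linearize B J hJ h hu hv (by omega)
    rw [← Finset.sum_range_reflect] at h1
    convert h1 using 1
    apply Finset.sum_congr rfl
    intro i hi
    rw [Finset.mem_range] at hi
    rw [show n + 1 - 1 - i = n - i by omega, show n + 1 - 1 - (n - i) = i by omega]
  have hlin' : ∀ {u v : A}, u ∈ B → v ∈ B →
      ∑ j ∈ Finset.range (n + 1), u ^ j * v * u ^ (n - j) ∈ J := by
    intro u v hu hv
    have h1 := linearize B J hJ h hu hv (by omega)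
    simpa only [Nat.add_sub_cancel] using h1
  have hpr : ∀ {u v : A}, u ∈ J → v ∈ B → ∀ k : ℕ, u * v ^ k ∈ J := by
    intro u v hu hv k
    rcases k with _ | k
    · rwa [pow_zero, mul_one]
    · exact hr _ hu _ (pow_mem_of hB hv k)
  have hpl : ∀ {u v : A}, u ∈ B → v ∈ J → ∀ k : ℕ, u ^ k * v ∈ J := by
    intro u v hu hv k
    rcases k with _ | k
    · rwa [pow_zero, one_mul]
    · exact hl _ (pow_mem_of hB hu k) _ hv
  -- the double sum
  have hS : ∑ j ∈ Finset.range (n + 1), ∑ i ∈ Finset.range (n + 1),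
      x ^ (n - i) * (z * y ^ j) * x ^ i * y ^ (n - j) ∈ J := by
    apply AddSubgroup.sum_mem
    intro j _
    rw [← Finset.sum_mul]
    apply hpr _ hy
    apply hlin hx
    rcases j with _ | j
    · rwa [pow_zero, mul_one]
    · exact hB _ hz _ (pow_mem_of hB hy j)
  rw [Finset.sum_comm, Finset.sum_range_succ' _ n] at hS
  have h1 : ∑ i ∈ Finset.range n, ∑ j ∈ Finset.range (n + 1),
      x ^ (n - (i + 1)) * (z * y ^ j) * x ^ (i + 1) * y ^ (n - j) ∈ J := by
    apply AddSubgroup.sum_mem
    intro i _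
    have e : ∑ j ∈ Finset.range (n + 1), x ^ (n - (i + 1)) * (z * y ^ j) * x ^ (i + 1) *
        y ^ (n - j) = x ^ (n - (i + 1)) * (z * ∑ j ∈ Finset.range (n + 1),
          y ^ j * x ^ (i + 1) * y ^ (n - j)) := by
      rw [Finset.mul_sum, Finset.mul_sum]
      apply Finset.sum_congr rfl
      intro j _
      simp only [mul_assoc]
    rw [e]
    exact hpl hx (hl _ hz _ (hlin' hy (pow_mem_of hB hx i))) _
  have h2 := (AddSubgroup.add_mem_cancel_left J h1).1 hS
  have h3 : ∑ j ∈ Finset.range (n + 1), x ^ (n - 0) * (z * y ^ j) * x ^ 0 * y ^ (n - j) =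
      (n + 1 : ℕ) • (x ^ n * z * y ^ n) := by
    have h4 : ∀ j ∈ Finset.range (n + 1), x ^ (n - 0) * (z * y ^ j) * x ^ 0 * y ^ (n - j) =
        x ^ n * z * y ^ n := by
      intro j hj
      rw [Finset.mem_range] at hj
      rw [Nat.sub_zero, pow_zero, mul_one, ← mul_assoc, mul_assoc _ (y ^ j), ← pow_add,
        show j + (n - j) = n by omega]
    rw [Finset.sum_congr rfl h4, Finset.sum_const, Finset.card_range]
  rw [h3] at h2
  exact hJ _ (by omega) le_rfl _ h2

end unital

variable {R : Type*} [NonUnitalRing R]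

theorem inr_pw (a : R) (n : ℕ) : (Unitization.inr (pw a n) : Unitization ℤ R) =
    (Unitization.inr a) ^ (n + 1) := by
  induction n with
  | zero => simp [pw]
  | succ n ih => rw [pw, Unitization.inr_mul, ih, pow_succ' _ (n + 1)]

theorem higman' (W : AddSubgroup R) (hl : ∀ x, ∀ y ∈ W, x * y ∈ W)
    (hr : ∀ x ∈ W, ∀ y, x * y ∈ W) (n : ℕ) (hW : Pure W (n + 2))
    (h : ∀ a, pw a (n + 1) ∈ W) (x y z : R) : pw x n * z * pw y n ∈ W := by
  let ι : R →+ Unitization ℤ R := ⟨⟨Unitization.inr, rfl⟩, fun _ _ => Unitization.inr_add _ _ _⟩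
  let B : AddSubgroup (Unitization ℤ R) := ι.range
  let J : AddSubgroup (Unitization ℤ R) := W.map ι
  have hι : ∀ u : R, ι u = (Unitization.inr u : Unitization ℤ R) := fun u => rfl
  have hmul : ∀ u v : R, ι u * ι v = ι (u * v) := fun u v => (Unitization.inr_mul ℤ u v).symm
  have hmem : ∀ u : R, ι u ∈ J → u ∈ W := by
    rintro u ⟨w, hw, hwu⟩
    have : w = u := Unitization.inr_injective hwu
    exact this ▸ hw
  have h1 := higman (A := Unitization ℤ R) (B := B) (J := J) (n := n + 1)
    (by rintro _ ⟨u, rfl⟩ _ ⟨v, rfl⟩; exact ⟨u * v, (hmul u v).symm⟩)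
    (by rintro _ ⟨u, rfl⟩ _ ⟨v, hv, rfl⟩; exact ⟨u * v, hl _ _ hv, (hmul u v).symm⟩)
    (by rintro _ ⟨u, hu, rfl⟩ _ ⟨v, rfl⟩; exact ⟨u * v, hr _ hu _, (hmul u v).symm⟩)
    (by
      intro k hk1 hk2 z hz
      obtain ⟨w, hw, hwz⟩ := hz
      have e1 : z.fst = 0 := by
        have h1 := congrArg (fun u : Unitization ℤ R => u.fst) hwz
        have h2 : (k : ℤ) * z.fst = 0 := by
          rw [← nsmul_eq_mul]
          exact h1.symm
        rcases mul_eq_zero.1 h2 with h3 | h3
        · exfalso; omega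
        · exact h3
      have e2 : z = ι z.snd := by
        ext
        · rw [e1]; rfl
        · rfl
      have e3 : w = k • z.snd := by
        exact congrArg (fun u : Unitization ℤ R => u.snd) hwz
      rw [e2]
      exact ⟨z.snd, hW k hk1 hk2 _ (e3 ▸ hw), rfl⟩)
    (by
      rintro _ ⟨u, rfl⟩
      exact ⟨pw u (n + 1), h u, inr_pw u (n + 1)⟩)
    (x := ι x) (y := ι y) (z := ι z) (AddMonoidHom.mem_range.2 ⟨x, rfl⟩)
    (AddMonoidHom.mem_range.2 ⟨y, rfl⟩) (AddMonoidHom.mem_range.2 ⟨z, rfl⟩)
  apply hmem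
  rw [← hmul, ← hmul, hι (pw x n), hι (pw y n), inr_pw, inr_pw]
  exact h1

/-- A two-sided ideal which contains all `a ^ (n + 1)` and without small torsion in the quotient
is everything if `R = R²`. -/
theorem hig (hR : AddSubgroup.closure {z : R | ∃ a b, z = a * b} = ⊤) (n : ℕ) :
    ∀ (W : AddSubgroup R), (∀ x, ∀ y ∈ W, x * y ∈ W) → (∀ x ∈ W, ∀ y, x * y ∈ W) →
      Pure W (n + 1) → (∀ a, pw a n ∈ W) → ∀ r, r ∈ W := by
  induction n with
  | zero => intro W _ _ _ h r; exact h r
  | succ n ih =>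
    intro W hl hr hW h
    have h1 := higman' W hl hr n hW h
    have h2 : ∀ y r z : R, r * z * pw y n ∈ W := by
      intro y
      let W1 : AddSubgroup R :=
        { carrier := {r | ∀ z, r * z * pw y n ∈ W}
          zero_mem' := fun z => by rw [zero_mul, zero_mul]; exact W.zero_mem
          add_mem' := fun {a b} ha hb z => by
            rw [add_mul, add_mul]; exact W.add_mem (ha z) (hb z)
          neg_mem' := fun {a} ha z => by rw [neg_mul, neg_mul]; exact W.neg_mem (ha z) }
      refine ih W1 ?_ ?_ ?_ ?_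
      · intro s r hr z
        rw [mul_assoc, mul_assoc, ← mul_assoc r]
        exact hl _ _ (hr z)
      · intro r hr s z
        rw [mul_assoc r]
        exact hr (s * z)
      · intro k hk1 hk2 r hr z
        apply hW k hk1 (by omega)
        rw [← smul_mul_assoc, ← smul_mul_assoc]
        exact hr z
      · intro a z
        exact h1 a y z
    have h3 : ∀ u r z : R, r * z * u ∈ W := by
      let W2 : AddSubgroup R :=
        { carrier := {u | ∀ r z, r * z * u ∈ W}
          zero_mem' := fun r z => by rw [mul_zero]; exact W.zero_mem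
          add_mem' := fun {a b} ha hb r z => by
            rw [mul_add]; exact W.add_mem (ha r z) (hb r z)
          neg_mem' := fun {a} ha r z => by rw [mul_neg]; exact W.neg_mem (ha r z) }
      refine ih W2 ?_ ?_ ?_ ?_
      · intro s u hu r z
        rw [← mul_assoc, mul_assoc r]
        exact hu r (z * s)
      · intro u hu s r z
        rw [← mul_assoc]
        exact hr _ (hu r z) _
      · intro k hk1 hk2 u hu r z
        apply hW k hk1 (by omega)
        rw [← mul_smul_comm]
        exact hu r z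
      · intro a r z
        exact h2 a r z
    have h4 : ∀ u v : R, u * v ∈ W := by
      intro u v
      have hu : u ∈ AddSubgroup.closure {z : R | ∃ a b, z = a * b} := by rw [hR]; trivial
      induction hu using AddSubgroup.closure_induction with
      | mem y hy =>
        obtain ⟨a, b, rfl⟩ := hy
        exact h3 v a b
      | zero => rw [zero_mul]; exact W.zero_mem
      | add y z _ _ h1 h2 => rw [add_mul]; exact W.add_mem h1 h2
      | neg y _ h1 => rw [neg_mul]; exact W.neg_mem h1
    intro r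
    have hu : r ∈ AddSubgroup.closure {z : R | ∃ a b, z = a * b} := by rw [hR]; trivial
    have hle : AddSubgroup.closure {z : R | ∃ a b, z = a * b} ≤ W := by
      rw [AddSubgroup.closure_le]
      rintro _ ⟨a, b, rfl⟩
      exact h4 a b
    exact hle hu

end Pool.Agent.Y108.LV
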