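import Pool.Agent.Y108.LV.Cap
import Pool.Agent.Y108.LV.Hig

set_option autoImplicit false

/-!
# Rings with a Capelli identity which coincide with their derived Lie ring
-/

universe u

namespace Pool.Agent.Y108.LV

open scoped Nat

/-- Every element is a sum of commutators. -/
def Perf (R : Type u) [NonUnitalRing R] : Prop :=
  AddSubgroup.closure {x : R | ∃ a b : R, x = a * b - b * a} = ⊤

section

variable {R : Type u} [NonUnitalRing R]

theorem Perf.sq (h : Perf R) : AddSubgroup.closure {z : R | ∃ a b, z = a * b} = ⊤ := by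
  rw [eq_top_iff, ← h, AddSubgroup.closure_le]
  rintro _ ⟨a, b, rfl⟩
  exact AddSubgroup.sub_mem _ (AddSubgroup.subset_closure ⟨a, b, rfl⟩)
    (AddSubgroup.subset_closure ⟨b, a, rfl⟩)

/-- An additive property which holds for products holds for all elements. -/
theorem Perf.ind (h : Perf R) {P : R → Prop} (h0 : P 0) (ha : ∀ x y, P x → P y → P (x + y))
    (hn : ∀ x, P x → P (-x)) (hm : ∀ a b, P (a * b)) (r : R) : P r := by
  have hr : r ∈ AddSubgroup.closure {z : R | ∃ a b, z = a * b} := by rw [h.sq]; trivial
  induction hr using AddSubgroup.closure_induction with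
  | mem y hy =>
    obtain ⟨a, b, rfl⟩ := hy
    exact hm a b
  | zero => exact h0
  | add y z _ _ h1 h2 => exact ha _ _ h1 h2
  | neg y _ h1 => exact hn _ h1

/-- the congruence modulo an ideal -/
def conOf (I : AddSubgroup R) (hl : ∀ x, ∀ y ∈ I, x * y ∈ I) (hr : ∀ x ∈ I, ∀ y, x * y ∈ I) :
    RingCon R where
  r a b := a - b ∈ I
  iseqv := ⟨fun a => by rw [sub_self]; exact I.zero_mem,
    fun {a b} h => by rw [← neg_sub]; exact I.neg_mem h,
    fun {a b c} h1 h2 => by
      have := I.add_mem h1 h2
      rwa [sub_add_sub_cancel] at this⟩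
  mul' {w x y z} h1 h2 := by
    change w * y - x * z ∈ I
    have h3 : w * y - x * z = (w - x) * y + x * (y - z) := by
      rw [sub_mul, mul_sub]; abel
    rw [h3]
    exact I.add_mem (hr _ h1 _) (hl _ _ h2)
  add' {w x y z} h1 h2 := by
    change (w + y) - (x + z) ∈ I
    rw [add_sub_add_comm]
    exact I.add_mem h1 h2

theorem map_mono {S : Type u} [NonUnitalRing S] (qm : R →ₙ+* S) (m : ℕ) (y : Fin (m + 1) → R)
    (x : Fin m → R) : qm (mono m y x) = mono m (fun i => qm (y i)) (fun i => qm (x i)) := by
  induction m with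
  | zero => rfl
  | succ m ih =>
    simp only [mono, map_mul, ih]
    rfl

theorem map_cap {S : Type u} [NonUnitalRing S] (qm : R →ₙ+* S) (m : ℕ) (y : Fin (m + 1) → R)
    (x : Fin m → R) : qm (cap m y x) = cap m (fun i => qm (y i)) (fun i => qm (x i)) := by
  simp only [cap, map_sum, map_zsmul, map_mono]

/-- Passing to the quotient by an ideal `I`: if `I` has no `f`-torsion in the quotient and
contains the values of the Capelli polynomial, then `I` is everything, provided the theorem holds
for the quotient. -/
theorem quot_step (f m : ℕ)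
    (ih : ∀ (S : Type u) [NonUnitalRing S], Perf S → (∀ z : S, f • z = 0 → z = 0) →
      (∀ y x, cap (R := S) m y x = 0) → ∀ s : S, s = 0)
    (hR : Perf R) (I : AddSubgroup R) (hl : ∀ x, ∀ y ∈ I, x * y ∈ I)
    (hr : ∀ x ∈ I, ∀ y, x * y ∈ I) (hf : ∀ z : R, f • z ∈ I → z ∈ I)
    (hc : ∀ y x, cap (R := R) m y x ∈ I) (r : R) : r ∈ I := by
  let c := conOf I hl hr
  let qm : R →ₙ+* c.Quotient :=
    { toFun := fun x => (x : c.Quotient)
      map_mul' := fun x y => rfl
      map_zero' := rfl
      map_add' := fun x y => rfl }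
  have hqm : Function.Surjective qm := Quotient.mk''_surjective
  have hker : ∀ x : R, qm x = 0 ↔ x ∈ I := by
    intro x
    change (x : c.Quotient) = ((0 : R) : c.Quotient) ↔ _
    rw [RingCon.eq]
    change x - 0 ∈ I ↔ _
    rw [sub_zero]
  rw [← hker]
  refine ih c.Quotient ?_ ?_ ?_ _
  · rw [Perf, eq_top_iff]
    rintro s -
    obtain ⟨x, rfl⟩ := hqm s
    have hx : x ∈ AddSubgroup.closure {x : R | ∃ a b : R, x = a * b - b * a} := by
      rw [show AddSubgroup.closure {x : R | ∃ a b : R, x = a * b - b * a} = ⊤ from hR]; trivial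
    induction hx using AddSubgroup.closure_induction with
    | mem y hy =>
      obtain ⟨a, b, rfl⟩ := hy
      exact AddSubgroup.subset_closure ⟨qm a, qm b, by rw [map_sub, map_mul, map_mul]⟩
    | zero => rw [map_zero]; exact AddSubgroup.zero_mem _
    | add y z _ _ h1 h2 => rw [map_add]; exact AddSubgroup.add_mem _ h1 h2
    | neg y _ h1 => rw [map_neg]; exact AddSubgroup.neg_mem _ h1
  · intro z hz
    obtain ⟨x, rfl⟩ := hqm z
    rw [← map_nsmul, hker] at hz
    rw [hker]
    exact hf x hz
  · intro y x
    choose g hg using hqm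
    have h1 : y = fun i => qm (g (y i)) := funext fun i => (hg _).symm
    have h2 : x = fun i => qm (g (x i)) := funext fun i => (hg _).symm
    rw [h1, h2, ← map_cap, hker]
    exact hc _ _

/-- The main step. -/
theorem main_step (m f : ℕ) (hm : 1 ≤ m) (hmf : m ! ∣ f)
    (ih : ∀ (S : Type u) [NonUnitalRing S], Perf S → (∀ z : S, f • z = 0 → z = 0) →
      (∀ y x, cap (R := S) m y x = 0) → ∀ s : S, s = 0)
    (hR : Perf R) (hf : ∀ z : R, f • z = 0 → z = 0)
    (hc : ∀ y x, cap (R := R) (m + 1) y x = 0) (r : R) : r = 0 := by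
  classical
  have hfe : ∀ (e : ℕ) (z : R), f ^ e • z = 0 → z = 0 := by
    intro e
    induction e with
    | zero => intro z hz; rwa [pow_zero, one_smul] at hz
    | succ e ihe =>
      intro z hz
      rw [pow_succ, mul_smul] at hz
      exact hf z (ihe _ hz)
  have hk : ∀ k : ℕ, 1 ≤ k → k ≤ m → ∀ z : R, k • z = 0 → z = 0 := by
    intro k hk1 hk2 z hz
    obtain ⟨d, hd⟩ : k ∣ f := (Nat.dvd_factorial hk1 hk2).trans hmf
    apply hf z
    rw [hd, mul_comm, mul_smul, hz, smul_zero]
  -- the ideal generated by the values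
  let U : AddSubgroup R := AddSubgroup.closure {v | ∃ y x, v = cap m y x}
  have hUl : ∀ p, ∀ u ∈ U, p * u ∈ U := by
    intro p u hu
    induction hu using AddSubgroup.closure_induction with
    | mem v hv =>
      obtain ⟨y, x, rfl⟩ := hv
      rw [cap_left]
      exact AddSubgroup.subset_closure ⟨_, _, rfl⟩
    | zero => rw [mul_zero]; exact U.zero_mem
    | add y z _ _ h1 h2 => rw [mul_add]; exact U.add_mem h1 h2
    | neg y _ h1 => rw [mul_neg]; exact U.neg_mem h1
  have hUr : ∀ u ∈ U, ∀ q, u * q ∈ U := by
    intro u hu q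
    induction hu using AddSubgroup.closure_induction with
    | mem v hv =>
      obtain ⟨y, x, rfl⟩ := hv
      rw [cap_right]
      exact AddSubgroup.subset_closure ⟨_, _, rfl⟩
    | zero => rw [zero_mul]; exact U.zero_mem
    | add y z _ _ h1 h2 => rw [add_mul]; exact U.add_mem h1 h2
    | neg y _ h1 => rw [neg_mul]; exact U.neg_mem h1
  let U' : AddSubgroup R :=
    { carrier := {z | ∃ e : ℕ, f ^ e • z ∈ U}
      zero_mem' := ⟨0, by rw [smul_zero]; exact U.zero_mem⟩
      add_mem' := by
        rintro a b ⟨e, he⟩ ⟨e', he'⟩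
        refine ⟨e + e', ?_⟩
        rw [smul_add]
        refine U.add_mem ?_ ?_
        · rw [pow_add, mul_comm, mul_smul]; exact U.nsmul_mem he _
        · rw [pow_add, mul_smul]; exact U.nsmul_mem he' _
      neg_mem' := by
        rintro a ⟨e, he⟩
        exact ⟨e, by rw [smul_neg]; exact U.neg_mem he⟩ }
  have hU' : ∀ z : R, ∃ e : ℕ, f ^ e • z ∈ U := by
    intro z
    refine quot_step f m ih hR U' ?_ ?_ ?_ ?_ z
    · rintro p u ⟨e, he⟩
      exact ⟨e, by rw [← mul_smul_comm]; exact hUl _ _ he⟩
    · rintro u ⟨e, he⟩ q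
      exact ⟨e, by rw [← smul_mul_assoc]; exact hUr _ he _⟩
    · rintro z ⟨e, he⟩
      exact ⟨e + 1, by rw [pow_succ, mul_smul]; exact he⟩
    · intro y x
      exact ⟨0, by rw [pow_zero, one_smul]; exact AddSubgroup.subset_closure ⟨_, _, rfl⟩⟩
  -- all traces vanish
  have hT : ∀ (y : Fin (m + 1) → R) (a : R) (x : Fin m → R) (r : R),
      T a (capR m y) x * r = 0 := by
    intro y a x
    have h1 : ∀ w, ∀ u ∈ U, T a (capR m y) x * w * u = 0 := by
      intro w u hu
      induction hu using AddSubgroup.closure_induction with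
      | mem v hv =>
        obtain ⟨y', x', rfl⟩ := hv
        exact T_eq_zero (slotE_capR m y) (exR_capR m hc y) (slotE_cap m y') (exL_cap m hc y')
          hR a x w x'
      | zero => rw [mul_zero]
      | add y z _ _ h1 h2 => rw [mul_add, h1, h2, add_zero]
      | neg y _ h1 => rw [mul_neg, h1, neg_zero]
    refine hR.ind (by rw [mul_zero]) (fun u v hu hv => by rw [mul_add, hu, hv, add_zero])
      (fun u hu => by rw [mul_neg, hu, neg_zero]) ?_
    intro w u
    obtain ⟨e, he⟩ := hU' u
    apply hfe e
    rw [← mul_assoc, ← mul_smul_comm]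
    exact h1 w _ he
  -- the polynomial vanishes
  have hD : ∀ (y : Fin (m + 1) → R) (x : Fin m → R) (r : R), capR m y x * r = 0 := by
    intro y x r
    let D : (Fin m → R) → R := fun x => capR m y x * r
    have hDs : SlotE D := fun x i => (slotE_capR m y x i).mulRight r
    have hDT : ∀ (a : R) (x : Fin m → R), ∑ i, D (Function.update x i (a * x i)) = 0 := by
      intro a x
      simp only [D]
      rw [← Finset.sum_mul]
      exact hT y a x r
    have hadd : ∀ (x : Fin m → R) (i : Fin m) (u v : R), D (Function.update x i (u + v)) =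
        D (Function.update x i u) + D (Function.update x i v) := fun x i u v =>
      (hDs x i).map_add u v
    have hneg : ∀ (x : Fin m → R) (i : Fin m) (u : R), D (Function.update x i (-u)) =
        - D (Function.update x i u) := fun x i u => (hDs x i).map_neg u
    have hzero : ∀ (x : Fin m → R) (i : Fin m), D (Function.update x i 0) = 0 := fun x i =>
      (hDs x i).map_zero
    have hnsmul : ∀ (x : Fin m → R) (i : Fin m) (k : ℕ) (u : R),
        D (Function.update x i (k • u)) = k • D (Function.update x i u) := by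
      intro x i k u
      induction k with
      | zero => rw [zero_smul, zero_smul, hzero]
      | succ k ihk => rw [succ_nsmul, succ_nsmul, hadd, ihk]
    obtain ⟨n, rfl⟩ : ∃ n, m = n + 1 := ⟨m - 1, by omega⟩
    let W : AddSubgroup R :=
      { carrier := {w | ∀ x i, D (Function.update x i (w * x i)) = 0}
        zero_mem' := fun x i => by rw [zero_mul, hzero]
        add_mem' := fun {a b} ha hb x i => by rw [add_mul, hadd, ha, hb, add_zero]
        neg_mem' := fun {a} ha x i => by rw [neg_mul, hneg, ha, neg_zero] }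
    have hW : ∀ w, w ∈ W := by
      refine hig hR.sq n W ?_ ?_ ?_ ?_
      · -- left ideal
        intro s w hw x i
        have h1 := hDT s (Function.update x i (w * x i))
        rw [← Finset.add_sum_erase _ _ (Finset.mem_univ i), Finset.sum_eq_zero, add_zero] at h1
        · rw [Function.update_idem, Function.update_self] at h1
          rw [mul_assoc]
          exact h1
        · intro j hj
          have hji : j ≠ i := Finset.ne_of_mem_erase hj
          rw [Function.update_of_ne hji, Function.update_comm (Ne.symm hji)]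
          have h2 := hw (Function.update x j (s * x j)) i
          rwa [Function.update_of_ne (Ne.symm hji)] at h2
      · -- right ideal
        intro w hw s x i
        have h2 := hw (Function.update x i (s * x i)) i
        rw [Function.update_idem, Function.update_self, ← mul_assoc] at h2
        exact h2
      · intro k hk1 hk2 w hw x i
        apply hk k hk1 hk2
        rw [← hnsmul, ← smul_mul_assoc]
        exact hw x i
      · intro a x i
        rw [pw_mul]
        exact pow_kill hk D hDT a x i
    have h0 : D x = D (Function.update x 0 (x 0)) := by rw [Function.update_eq_self]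
    have h3 : ∀ z : R, D (Function.update x 0 z) = 0 := by
      refine hR.ind (hzero x 0) (fun u v hu hv => by rw [hadd, hu, hv, add_zero])
        (fun u hu => by rw [hneg, hu, neg_zero]) ?_
      intro a b
      have h4 := hW a (Function.update x 0 b) 0
      rwa [Function.update_idem, Function.update_self] at h4
    change D x = 0
    rw [h0, h3]
  have hv : ∀ u ∈ U, ∀ r, u * r = 0 := by
    intro u hu r
    induction hu using AddSubgroup.closure_induction with
    | mem v hv =>
      obtain ⟨y, x, rfl⟩ := hv
      have h1 := hD y (fun i => x i.rev) r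
      simp only [capR, Fin.rev_rev] at h1
      exact h1
    | zero => rw [zero_mul]
    | add y z _ _ h1 h2 => rw [add_mul, h1, h2, add_zero]
    | neg y _ h1 => rw [neg_mul, h1, neg_zero]
  refine hR.ind (P := fun r => r = 0) rfl (fun u v hu hv => by rw [hu, hv, add_zero])
    (fun u hu => by rw [hu, neg_zero]) ?_ r
  intro a b
  obtain ⟨e, he⟩ := hU' a
  apply hfe e
  rw [← smul_mul_assoc]
  exact hv _ he b

end

theorem main_aux (f : ℕ) (m : ℕ) : m ! ∣ f → ∀ (R : Type u) [NonUnitalRing R], Perf R →
    (∀ z : R, f • z = 0 → z = 0) → (∀ y x, cap (R := R) (m + 1) y x = 0) → ∀ r : R, r = 0 := by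
  induction m with
  | zero =>
    intro _ R _ hR _ hc
    have h1 : ∀ a b c : R, a * b * c = 0 := by
      intro a b c
      have := hc ![a, c] ![b]
      rw [cap_succ] at this
      simpa [cap, mono, Fin.tail] using this
    have h2 : ∀ (u c : R), u * c = 0 := fun u c =>
      hR.ind (P := fun u => u * c = 0) (zero_mul _)
        (fun x y hx hy => by rw [add_mul, hx, hy, add_zero])
        (fun x hx => by rw [neg_mul, hx, neg_zero]) (fun a b => h1 a b c) u
    exact fun r => hR.ind (P := fun r => r = 0) rfl (fun u v hu hv => by rw [hu, hv, add_zero])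
      (fun u hu => by rw [hu, neg_zero]) h2 r
  | succ m ih =>
    intro hd R _ hR hf hc
    refine main_step (m + 1) f (by omega) hd ?_ hR hf hc
    intro S _ hS hfS hcS
    exact ih ((Nat.factorial_dvd_factorial (Nat.le_succ m)).trans hd) S hS hfS hcS

/-- A ring with a Capelli identity which coincides with its derived Lie ring: every element is
killed by a power of `m!`. -/
theorem main (m : ℕ) (R : Type u) [NonUnitalRing R] (hR : Perf R)
    (hc : ∀ y x, cap (R := R) (m + 1) y x = 0) (r : R) : ∃ e : ℕ, (m !) ^ e • r = 0 := by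
  let I : AddSubgroup R :=
    { carrier := {z | ∃ e : ℕ, (m !) ^ e • z = 0}
      zero_mem' := ⟨0, smul_zero _⟩
      add_mem' := by
        rintro a b ⟨e, he⟩ ⟨e', he'⟩
        refine ⟨e + e', ?_⟩
        rw [smul_add, pow_add, mul_comm, mul_smul, he, smul_zero, zero_add, mul_comm, mul_smul,
          he', smul_zero]
      neg_mem' := by
        rintro a ⟨e, he⟩
        exact ⟨e, by rw [smul_neg, he, neg_zero]⟩ }
  refine quot_step (m !) (m + 1) (fun S _ => main_aux (m !) m dvd_rfl S) hR I ?_ ?_ ?_ ?_ r
  · rintro p u ⟨e, he⟩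
    exact ⟨e, by rw [← mul_smul_comm, he, mul_zero]⟩
  · rintro u ⟨e, he⟩ q
    exact ⟨e, by rw [← smul_mul_assoc, he, zero_mul]⟩
  · rintro z ⟨e, he⟩
    exact ⟨e + 1, by rw [pow_succ, mul_smul]; exact he⟩
  · intro y x
    rw [hc]
    exact I.zero_mem

end Pool.Agent.Y108.LV
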