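import Mathlib

set_option autoImplicit false

/-!
# Commuting operators whose power sums kill a vector
-/

namespace Pool.Agent.Y108.LV

open Polynomial in
/-- In a commutative ring `K`, if an element `d` of a module without `k`-torsion, `k ≤ m`, is
killed by the power sums of `α_1, …, α_m`, then it is killed by every `α_i ^ m`. -/
theorem newton_comm {K : Type*} [CommRing K] {M : Type*} [AddCommGroup M]
    [Module K M] {m : ℕ} (hM : ∀ k : ℕ, 1 ≤ k → k ≤ m → ∀ d : M, k • d = 0 → d = 0)
    (α : Fin m → K) (d : M)
    (h : ∀ k, 1 ≤ k → (∑ i, α i ^ k) • d = 0) (i : Fin m) : α i ^ m • d = 0 := by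
  classical
  have hp : ∀ k, 1 ≤ k → (MvPolynomial.aeval α (MvPolynomial.psum (Fin m) ℤ k)) • d = 0 := by
    intro k hk
    have : MvPolynomial.aeval α (MvPolynomial.psum (Fin m) ℤ k) = ∑ i, α i ^ k := by
      simp [MvPolynomial.psum]
    rw [this]
    exact h k hk
  have he : ∀ k, 1 ≤ k → k ≤ m →
      (MvPolynomial.aeval α (MvPolynomial.esymm (Fin m) ℤ k)) • d = 0 := by
    intro k hk hkm
    have h1 := congrArg (MvPolynomial.aeval α) (MvPolynomial.mul_esymm_eq_sum (Fin m) ℤ k)
    have h2 : (k : K) • (MvPolynomial.aeval α (MvPolynomial.esymm (Fin m) ℤ k)) • d = 0 := by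
      rw [smul_smul]
      have h3 : (k : K) * MvPolynomial.aeval α (MvPolynomial.esymm (Fin m) ℤ k) =
          MvPolynomial.aeval α ((k : MvPolynomial (Fin m) ℤ) * MvPolynomial.esymm (Fin m) ℤ k) := by
        simp
      rw [h3, h1]
      simp only [map_mul, map_sum, map_pow, map_neg, map_one]
      rw [mul_smul, Finset.sum_smul]
      rw [Finset.sum_eq_zero, smul_zero]
      intro x hx
      rw [Finset.mem_filter, Finset.HasAntidiagonal.mem_antidiagonal] at hx
      rw [mul_smul, hp x.2 (by omega), smul_zero]
    apply hM k hk hkm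
    rwa [Nat.cast_smul_eq_nsmul] at h2
  have hv := congrArg (Polynomial.eval (α i))
    (Multiset.prod_X_sub_X_eq_sum_esymm (Finset.univ.val.map α))
  have hz : Polynomial.eval (α i) (((Finset.univ.val.map α).map fun t => X - C t).prod) = 0 := by
    rw [Multiset.map_map]
    change Polynomial.eval (α i) (∏ j : Fin m, (X - C (α j))) = 0
    rw [Polynomial.eval_prod]
    exact Finset.prod_eq_zero (Finset.mem_univ i) (by simp)
  rw [hz] at hv
  rw [Polynomial.eval_finsetSum] at hv
  simp only [Multiset.card_map, Finset.card_val, Finset.card_univ, Fintype.card_fin] at hv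
  rw [Finset.sum_range_succ'] at hv
  have h5 : (0 : K) • d = 0 := zero_smul _ _
  rw [hv, add_smul, Finset.sum_smul, Finset.sum_eq_zero, zero_add] at h5
  · have h7 : (Multiset.map α Finset.univ.val).esymm 0 = 1 := by
      simp [Multiset.esymm]
    rw [h7] at h5
    simpa using h5
  · intro j hj
    rw [Finset.mem_range] at hj
    have h6 : (Multiset.map α Finset.univ.val).esymm (j + 1) =
        MvPolynomial.aeval α (MvPolynomial.esymm (Fin m) ℤ (j + 1)) := by
      rw [MvPolynomial.aeval_esymm_eq_multiset_esymm]
    simp only [Polynomial.eval_mul, Polynomial.eval_pow, Polynomial.eval_neg, Polynomial.eval_one,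
      Polynomial.eval_C, Polynomial.eval_X]
    rw [h6, mul_comm ((MvPolynomial.aeval α) _), ← mul_assoc, mul_smul,
      he (j + 1) (by omega) (by omega), smul_zero]

/-- The same for pairwise commuting elements of a noncommutative ring. -/
theorem newton {E : Type*} [Ring E] {M : Type*} [AddCommGroup M]
    [Module E M] {m : ℕ} (hM : ∀ k : ℕ, 1 ≤ k → k ≤ m → ∀ d : M, k • d = 0 → d = 0)
    (A : Fin m → E) (hc : ∀ i j, A i * A j = A j * A i) (d : M)
    (h : ∀ k, 1 ≤ k → (∑ i, A i ^ k) • d = 0) (i : Fin m) : A i ^ m • d = 0 := by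
  let K := Algebra.adjoin ℤ (Set.range A)
  letI : CommRing K := Algebra.adjoinCommRingOfComm ℤ (by
    rintro _ ⟨i, rfl⟩ _ ⟨j, rfl⟩
    exact hc i j)
  let α : Fin m → K := fun i => ⟨A i, Algebra.subset_adjoin ⟨i, rfl⟩⟩
  have h1 := newton_comm (K := K) (M := M) hM α d (fun k hk => by
    have : ((∑ i, α i ^ k : K) : E) = ∑ i, A i ^ k := by
      simp [α]
    have h2 := h k hk
    rw [← this] at h2
    exact h2) i
  exact h1

variable {R : Type*} [NonUnitalRing R] {m : ℕ}

/-- the operator which multiplies the `i`-th argument by `a` -/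
def slotMul (a : R) (i : Fin m) : Module.End ℤ ((Fin m → R) → R) where
  toFun f := fun x => f (Function.update x i (a * x i))
  map_add' f g := rfl
  map_smul' c f := rfl

theorem slotMul_comm (a : R) (i j : Fin m) : slotMul a i * slotMul a j =
    slotMul a j * slotMul a i := by
  classical
  by_cases h : i = j
  · rw [h]
  ext f x
  change f (Function.update (Function.update x i (a * x i)) j
    (a * Function.update x i (a * x i) j)) = f (Function.update (Function.update x j (a * x j)) i
    (a * Function.update x j (a * x j) i))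
  rw [Function.update_of_ne (Ne.symm h), Function.update_of_ne h, Function.update_comm h]

theorem slotMul_pow (a : R) (i : Fin m) (k : ℕ) (f : (Fin m → R) → R) (x : Fin m → R) :
    (slotMul a i ^ k) f x = f (Function.update x i ((fun z => a * z)^[k] (x i))) := by
  classical
  induction k generalizing x with
  | zero => simp
  | succ k ih =>
    rw [pow_succ', Module.End.mul_apply]
    change (slotMul a i ^ k) f (Function.update x i (a * x i)) = _
    rw [ih, Function.update_idem, Function.update_self, Function.iterate_succ_apply]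

/-- powers: `pw a n = a ^ (n + 1)` -/
def pw (a : R) : ℕ → R
  | 0 => a
  | n + 1 => a * pw a n

theorem pw_mul (a : R) (n : ℕ) (z : R) : pw a n * z = (fun z => a * z)^[n + 1] z := by
  induction n with
  | zero => rfl
  | succ n ih =>
    rw [Function.iterate_succ_apply', ← ih]
    simp only [pw, mul_assoc]

/-- If all traces of `D` vanish then `D` is killed by the multiplication of one argument by
`a ^ m`. -/
theorem pow_kill (hR : ∀ k : ℕ, 1 ≤ k → k ≤ m → ∀ d : R, k • d = 0 → d = 0)
    (D : (Fin m → R) → R)
    (h : ∀ (a : R) (x : Fin m → R), ∑ i, D (Function.update x i (a * x i)) = 0) (a : R)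
    (x : Fin m → R) (i : Fin m) :
    D (Function.update x i ((fun z => a * z)^[m] (x i))) = 0 := by
  have h1 := newton (E := Module.End ℤ ((Fin m → R) → R)) (M := (Fin m → R) → R) (m := m)
    (by
      intro k hk hkm f hf
      funext x
      exact hR k hk hkm _ (congrFun hf x))
    (slotMul a) (slotMul_comm a) D (by
      intro k hk
      obtain ⟨n, rfl⟩ : ∃ n, k = n + 1 := ⟨k - 1, by omega⟩
      funext x
      change (∑ i, slotMul a i ^ (n + 1)) D x = 0
      rw [LinearMap.sum_apply, Finset.sum_apply]
      simp only [slotMul_pow, ← pw_mul]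
      exact h (pw a n) x) i
  have h2 := congrFun h1 x
  change (slotMul a i ^ m) D x = 0 at h2
  rwa [slotMul_pow] at h2

end Pool.Agent.Y108.LV
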