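import Pool.Agent.TH537.LV.C

set_option autoImplicit false

/-!
# Rings of 3 × 3 matrices over arbitrary commutative rings
-/

universe u v

namespace Pool.Agent.Y108.LV

variable {C : Type v} [CommRing C]

/-- the sum of the principal minors of order two -/
def s2 (M : Matrix (Fin 3) (Fin 3) C) : C :=
  (M 0 0 * M 1 1 - M 0 1 * M 1 0) + (M 0 0 * M 2 2 - M 0 2 * M 2 0) +
    (M 1 1 * M 2 2 - M 1 2 * M 2 1)

theorem cayley3 (M : Matrix (Fin 3) (Fin 3) C) :
    M * M * M = M.trace • (M * M) - s2 M • M + M.det • (1 : Matrix (Fin 3) (Fin 3) C) := by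
  ext i j
  fin_cases i <;> fin_cases j <;>
    simp [Matrix.mul_apply, Fin.sum_univ_three, Matrix.det_fin_three, s2, Matrix.trace] <;> ring

theorem s2_add (M N : Matrix (Fin 3) (Fin 3) C) :
    s2 (M + N) = s2 M + s2 N + M.trace * N.trace - (M * N).trace := by
  simp only [s2, Matrix.add_apply, Matrix.mul_apply, Fin.sum_univ_three, Matrix.trace,
    Matrix.diag_apply]
  ring

theorem s2_comm (M N : Matrix (Fin 3) (Fin 3) C) : s2 (M * N) = s2 (N * M) := by
  simp only [s2, Matrix.mul_apply, Fin.sum_univ_three]
  ring

theorem det3_add (M N : Matrix (Fin 3) (Fin 3) C) :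
    (M + N).det = M.det + N.det +
      ((M * M * N).trace - M.trace * (M * N).trace + s2 M * N.trace) +
      ((N * N * M).trace - N.trace * (N * M).trace + s2 N * M.trace) := by
  simp only [s2, Matrix.add_apply, Matrix.mul_apply, Fin.sum_univ_three, Matrix.trace,
    Matrix.diag_apply, Matrix.det_fin_three]
  ring

/-- A ring of 3 × 3 matrices over a commutative ring which coincides with its derived Lie ring
is zero. -/
theorem three {R : Type u} [NonUnitalRing R] (g : R →ₙ+* Matrix (Fin 3) (Fin 3) C)
    (hg : Function.Injective g)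
    (hR : AddSubgroup.closure {x : R | ∃ a b : R, x = a * b - b * a} = ⊤) : ∀ r : R, r = 0 := by
  have key : ∀ F : Matrix (Fin 3) (Fin 3) C → C, F 0 = 0 →
      (∀ x y : R, F (g (x + y)) = F (g x) + F (g y)) →
      (∀ x y : R, F (g (x * y)) = F (g (y * x))) → ∀ r : R, F (g r) = 0 := by
    intro F h0 ha hc r
    have hr : r ∈ AddSubgroup.closure {x : R | ∃ a b : R, x = a * b - b * a} := by
      rw [hR]; trivial
    induction hr using AddSubgroup.closure_induction with
    | mem y hy =>
      obtain ⟨a, b, rfl⟩ := hy
      have h1 := ha (a * b - b * a) (b * a)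
      rw [sub_add_cancel, hc] at h1
      exact right_eq_add.1 h1
    | zero => rw [map_zero, h0]
    | add y z _ _ h1 h2 => rw [ha, h1, h2, add_zero]
    | neg y _ h1 =>
      have h2 := ha y (-y)
      rw [add_neg_cancel, map_zero, h0, h1, zero_add] at h2
      exact h2.symm
  have ht : ∀ r, (g r).trace = 0 := by
    refine key (fun M => M.trace) (Matrix.trace_zero _ _) ?_ ?_
    · intro x y
      simp only [map_add, Matrix.trace_add]
    · intro x y
      simp only [map_mul]
      exact Matrix.trace_mul_comm _ _
  have hs : ∀ r, s2 (g r) = 0 := by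
    refine key s2 (by simp [s2]) ?_ ?_
    · intro x y
      rw [map_add, s2_add, ht, ← map_mul, zero_mul, add_zero, ht (x * y), sub_zero]
    · intro x y
      rw [map_mul, map_mul, s2_comm]
  have hd : ∀ r, (g r).det = 0 := by
    refine key (fun M => M.det) (by simp) ?_ ?_
    · intro x y
      simp only [map_add]
      rw [det3_add]
      simp only [← map_mul, ht, hs]
      ring
    · intro x y
      simp only [map_mul, Matrix.det_mul]
      ring
  apply Pool.Agent.TH537.LV.zero_of_cube hR
  intro x
  apply hg
  rw [map_mul, map_mul, cayley3, ht, hs, hd, map_zero, zero_smul, zero_smul, zero_smul, sub_zero,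
    add_zero]

end Pool.Agent.Y108.LV
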